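import Pool.Agent.H484.AL.Stm

/-! MP_6b2836_nt, project AL, task DET: the deterministic combination. -/

set_option autoImplicit false

namespace Pool.Agent.H484.AL

open Finset
open scoped Classical

lemma h415_good_zero (d R N : ℕ) (a : Fin d → ℕ) : Good d R N a 0 := by
  refine ⟨∅, ⟨fun k hk => absurd hk (Finset.notMem_empty k), fun k hk => absurd hk
    (Finset.notMem_empty k)⟩, ?_⟩
  simp [wt]

lemma h415_good_mono {d R N : ℕ} {a : Fin d → ℕ} {s s' : ℝ} (h : Good d R N a s') (hs : s ≤ s') :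
    Good d R N a s := by
  obtain ⟨K, hK, hw⟩ := h
  exact ⟨K, hK, hs.trans hw⟩

lemma h415_cs (e g M a0 B J t0 t1 : ℕ) (α b : Fin e → ℕ) :
    (∑ t ∈ Ico t0 t1, (B : ℝ) ^ t * Mt e g M a0 B J α b t) ^ 2 ≤
      VV e g M a0 B J t0 t1 α b * QQ e g M a0 B J t0 t1 α b := by
  have h1 : ∑ t ∈ Ico t0 t1, (B : ℝ) ^ t * Mt e g M a0 B J α b t =
      ∑ w ∈ Om e J t0 t1, (B : ℝ) ^ w.1 * (NN e g M a0 B α b w.1 w.2 : ℝ) := by
    unfold Om Mt
    rw [Finset.sum_product]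
    exact Finset.sum_congr rfl fun t _ => Finset.mul_sum _ _ _
  rw [h1]
  unfold VV QQ
  apply Finset.sum_sq_le_sum_mul_sum_of_sq_eq_mul
  · intro w _
    split_ifs
    · positivity
    · exact le_rfl
  · intro w _
    positivity
  · intro w _
    split_ifs with h
    · ring
    · have h0 : NN e g M a0 B α b w.1 w.2 = 0 := by omega
      rw [h0]
      simp

theorem t_DET (hSEL : S_SEL) : S_DET := by
  intro e he
  refine ⟨2 ^ e / (2 ^ (3 * e + 5) * (18 * 4 ^ e)),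
    ((e : ℝ) + 1) * 2 ^ (2 * e - 1) * (4 * 4 ^ e), by positivity, by positivity, ?_⟩
  intro R B g M a0 J t0 t1 α b η hB hR hreg ht01 ht1 hη hM hQ hC
  rcases ht01.eq_or_lt with h01 | h01
  · subst h01
    have : (2 ^ e / (2 ^ (3 * e + 5) * (18 * 4 ^ e)) : ℝ) * η * ((t0 : ℝ) - t0) * (J : ℝ) ^ e -
        ((e : ℝ) + 1) * 2 ^ (2 * e - 1) * (4 * 4 ^ e) / η * ((t0 : ℝ) - t0) ^ 2 *
          (J : ℝ) ^ (2 * e - 1) / (B : ℝ) ^ t0 = 0 := by
      rw [sub_self]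
      ring
    rw [this]
    exact h415_good_zero _ _ _ _
  · have hJ : (1 : ℝ) ≤ J := by exact_mod_cast hreg.hJ
    have hB64 : (64 : ℝ) ≤ B := by exact_mod_cast hreg.hB
    obtain ⟨T, hT⟩ : ∃ T : ℝ, T = (t1 : ℝ) - t0 := ⟨_, rfl⟩
    have hT0 : 0 < T := by
      rw [hT]
      have : (t0 : ℝ) < t1 := by exact_mod_cast h01
      linarith
    rw [← hT] at hQ hC ⊢
    obtain ⟨Z, hZ⟩ : ∃ Z : ℝ, Z = ∑ t ∈ Ico t0 t1, (B : ℝ) ^ t * Mt e g M a0 B J α b t := ⟨_, rfl⟩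
    have hcs := h415_cs e g M a0 B J t0 t1 α b
    rw [← hZ] at hcs
    have hZ1 : T * ((2 * (J : ℝ)) ^ e / 2 ^ (e + 2)) ≤ Z := by
      rw [hZ]
      calc T * ((2 * (J : ℝ)) ^ e / 2 ^ (e + 2))
          = ∑ t ∈ Ico t0 t1, ((2 * (J : ℝ)) ^ e / 2 ^ (e + 2)) := by
            rw [Finset.sum_const, Nat.card_Ico, nsmul_eq_mul, Nat.cast_sub ht01, hT]
        _ ≤ _ := Finset.sum_le_sum fun t ht => by
            rw [Finset.mem_Ico] at ht
            exact hM t ht.1 ht.2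
    have hP : 0 < (2 * (J : ℝ)) ^ e := by positivity
    have hVV : 0 ≤ VV e g M a0 B J t0 t1 α b := by
      unfold VV
      apply Finset.sum_nonneg
      intro w _
      split_ifs
      · positivity
      · exact le_rfl
    have h1 : (T * ((2 * (J : ℝ)) ^ e / 2 ^ (e + 2))) ^ 2 ≤
        VV e g M a0 B J t0 t1 α b * (T * (2 * (J : ℝ)) ^ e * (18 * 4 ^ e) / η) :=
      calc (T * ((2 * (J : ℝ)) ^ e / 2 ^ (e + 2))) ^ 2 ≤ Z ^ 2 :=
            pow_le_pow_left₀ (by positivity) hZ1 2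
        _ ≤ _ := hcs
        _ ≤ _ := mul_le_mul_of_nonneg_left hQ hVV
    have h2 : η * T * (2 * (J : ℝ)) ^ e / (2 ^ (2 * e + 4) * (18 * 4 ^ e)) ≤
        VV e g M a0 B J t0 t1 α b := by
      have hpos : 0 < T * (2 * (J : ℝ)) ^ e * (18 * 4 ^ e) / η := by positivity
      refine le_of_mul_le_mul_right (le_trans (le_of_eq ?_) h1) hpos
      have e1 : (2 : ℝ) ^ (2 * e + 4) = (2 ^ (e + 2)) ^ 2 := by
        rw [← pow_mul]; congr 1; ring
      rw [e1]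
      field_simp
    refine h415_good_mono (hSEL e R B g M a0 J α b t0 t1 hB hR hreg ht1) ?_
    have h3 : (2 ^ e / (2 ^ (3 * e + 5) * (18 * 4 ^ e)) : ℝ) * η * T * (J : ℝ) ^ e ≤
        1 / 2 ^ (e + 1) * VV e g M a0 B J t0 t1 α b := by
      calc (2 ^ e / (2 ^ (3 * e + 5) * (18 * 4 ^ e)) : ℝ) * η * T * (J : ℝ) ^ e
          = 1 / 2 ^ (e + 1) * (η * T * (2 * (J : ℝ)) ^ e / (2 ^ (2 * e + 4) * (18 * 4 ^ e))) := by
            have e1 : (2 : ℝ) ^ (3 * e + 5) = 2 ^ (e + 1) * 2 ^ (2 * e + 4) := by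
              rw [← pow_add]; congr 1; ring
            rw [e1, mul_pow]
            field_simp
        _ ≤ _ := mul_le_mul_of_nonneg_left h2 (by positivity)
    have h4 : 1 / 2 ^ (e + 1) * CF e g M a0 B J t0 t1 α b ≤
        ((e : ℝ) + 1) * 2 ^ (2 * e - 1) * (4 * 4 ^ e) / η * T ^ 2 *
          (J : ℝ) ^ (2 * e - 1) / (B : ℝ) ^ t0 := by
      have h5 : (1 : ℝ) / 2 ^ (e + 1) ≤ 1 := by
        rw [div_le_one (by positivity)]
        exact one_le_pow₀ (by norm_num)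
      calc 1 / 2 ^ (e + 1) * CF e g M a0 B J t0 t1 α b
          ≤ 1 / 2 ^ (e + 1) * (T ^ 2 * ((e : ℝ) + 1) *
            (2 * (J : ℝ)) ^ (2 * e - 1) * (4 * 4 ^ e) / (B : ℝ) ^ t0 / η) :=
            mul_le_mul_of_nonneg_left hC (by positivity)
        _ ≤ 1 * (T ^ 2 * ((e : ℝ) + 1) *
            (2 * (J : ℝ)) ^ (2 * e - 1) * (4 * 4 ^ e) / (B : ℝ) ^ t0 / η) :=
            mul_le_mul_of_nonneg_right h5 (by positivity)
        _ = _ := by
            rw [mul_pow]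
            field_simp
    rw [mul_sub]
    linarith

end Pool.Agent.H484.AL
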