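import Pool.Agent.H484.AL.Stm

/-! MP_6b2836_nt, project AL, task GCD: few residues have a large common factor with `N`. -/

set_option autoImplicit false

namespace Pool.Agent.H415.AL

open Finset ArithmeticFunction

open Pool.Agent.H484.AL

lemma card_mult {N q : ℕ} (hq : q ∣ N) (hq0 : 0 < q) :
    ((range N).filter (fun a => q ∣ a)).card ≤ N / q := by
  calc ((range N).filter (fun a => q ∣ a)).card ≤ (range (N / q)).card := by
        apply Finset.card_le_card_of_injOn (fun a => a / q)
        · intro a ha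
          simp only [Finset.coe_filter, Finset.mem_range, Finset.coe_range, Set.mem_Iio,
            Set.mem_ofPred_eq] at ha ⊢
          obtain ⟨h1, h2⟩ := ha
          exact Nat.div_lt_div_of_lt_of_dvd hq h1
        · intro a ha b hb hab
          simp only [Finset.coe_filter, Finset.mem_range, Set.mem_ofPred_eq] at ha hb hab
          rw [← Nat.div_mul_cancel ha.2, ← Nat.div_mul_cancel hb.2, hab]
    _ = N / q := Finset.card_range _

lemma sum_log {N : ℕ} (hN : 0 < N) :
    ∑ a ∈ range N, Real.log (Nat.gcd a N) ≤ N * ∑ q ∈ N.divisors, vonMangoldt q / q := by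
  classical
  have h1 : ∀ a ∈ range N, Real.log (Nat.gcd a N) =
      ∑ q ∈ N.divisors, if q ∣ a then vonMangoldt q else 0 := by
    intro a _
    rw [← vonMangoldt_sum, ← Finset.sum_filter]
    apply Finset.sum_congr _ (fun _ _ => rfl)
    ext q
    simp only [Nat.mem_divisors, Finset.mem_filter]
    constructor
    · rintro ⟨h, _⟩
      exact ⟨⟨h.trans (Nat.gcd_dvd_right a N), hN.ne'⟩, h.trans (Nat.gcd_dvd_left a N)⟩
    · rintro ⟨⟨h, _⟩, h'⟩
      exact ⟨Nat.dvd_gcd h' h, (Nat.gcd_pos_of_pos_right a hN).ne'⟩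
  rw [Finset.sum_congr rfl h1, Finset.sum_comm, Finset.mul_sum]
  apply Finset.sum_le_sum
  intro q hq
  rw [Nat.mem_divisors] at hq
  have hq0 : 0 < q := Nat.pos_of_dvd_of_pos hq.1 hN
  have hq0' : (0 : ℝ) < q := by exact_mod_cast hq0
  rw [← Finset.sum_filter, Finset.sum_const, nsmul_eq_mul]
  have h2 : ((((range N).filter (fun a => q ∣ a)).card : ℕ) : ℝ) ≤ (N : ℝ) / q := by
    have h3 := card_mult hq.1 hq0
    have h4 : ((N / q : ℕ) : ℝ) = (N : ℝ) / q := Nat.cast_div hq.1 hq0'.ne'
    rw [← h4]
    exact_mod_cast h3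
  calc ((((range N).filter (fun a => q ∣ a)).card : ℕ) : ℝ) * vonMangoldt q ≤ (N : ℝ) / q * vonMangoldt q :=
        mul_le_mul_of_nonneg_right h2 vonMangoldt_nonneg
    _ = _ := by ring

lemma sum_vm {N : ℕ} (hN : 0 < N) {y : ℕ} (hy : 0 < y) :
    ∑ q ∈ N.divisors, vonMangoldt q / q ≤ y * Real.log y + Real.log N / y := by
  classical
  have hy' : (0 : ℝ) < y := by exact_mod_cast hy
  have hlogy : 0 ≤ Real.log y := Real.log_natCast_nonneg y
  rw [← Finset.sum_filter_add_sum_filter_not N.divisors (fun q => q ≤ y)]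
  apply add_le_add
  · calc ∑ q ∈ N.divisors.filter (fun q => q ≤ y), vonMangoldt q / q
        ≤ ∑ q ∈ N.divisors.filter (fun q => q ≤ y), Real.log y := by
          apply Finset.sum_le_sum
          intro q hq
          rw [Finset.mem_filter, Nat.mem_divisors] at hq
          have hq0 : 0 < q := Nat.pos_of_dvd_of_pos hq.1.1 hN
          have hq1 : (1 : ℝ) ≤ q := by exact_mod_cast hq0
          calc vonMangoldt q / q ≤ vonMangoldt q := div_le_self vonMangoldt_nonneg hq1
            _ ≤ Real.log q := vonMangoldt_le_log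
            _ ≤ Real.log y := Real.log_le_log (by linarith) (by exact_mod_cast hq.2)
      _ = ((N.divisors.filter (fun q => q ≤ y)).card : ℝ) * Real.log y := by
          rw [Finset.sum_const, nsmul_eq_mul]
      _ ≤ y * Real.log y := by
          apply mul_le_mul_of_nonneg_right _ hlogy
          have : (N.divisors.filter (fun q => q ≤ y)).card ≤ (Finset.Icc 1 y).card := by
            apply Finset.card_le_card
            intro q hq
            rw [Finset.mem_filter, Nat.mem_divisors] at hq
            rw [Finset.mem_Icc]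
            exact ⟨Nat.pos_of_dvd_of_pos hq.1.1 hN, hq.2⟩
          rw [Nat.card_Icc, Nat.add_sub_cancel] at this
          exact_mod_cast this
  · calc ∑ q ∈ N.divisors.filter (fun q => ¬ q ≤ y), vonMangoldt q / q
        ≤ ∑ q ∈ N.divisors.filter (fun q => ¬ q ≤ y), vonMangoldt q / y := by
          apply Finset.sum_le_sum
          intro q hq
          rw [Finset.mem_filter] at hq
          have : (y : ℝ) ≤ q := by exact_mod_cast (not_le.1 hq.2).le
          exact div_le_div_of_nonneg_left vonMangoldt_nonneg hy' this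
      _ ≤ ∑ q ∈ N.divisors, vonMangoldt q / y :=
          Finset.sum_le_sum_of_subset_of_nonneg (Finset.filter_subset _ _)
            fun q _ _ => div_nonneg vonMangoldt_nonneg hy'.le
      _ = Real.log N / y := by rw [← Finset.sum_div, vonMangoldt_sum]

end Pool.Agent.H415.AL

namespace Pool.Agent.H484.AL

open Finset
open scoped Classical

theorem t_GCD : S_GCD := by
  intro γ ε hγ hε
  obtain ⟨y, hy⟩ := exists_nat_gt (2 / (γ * ε))
  have hγε : 0 < γ * ε := mul_pos hγ hε
  have hy0' : (0 : ℝ) < y := lt_trans (by positivity) hy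
  have hy0 : 0 < y := by exact_mod_cast hy0'
  have hlogy : 0 ≤ Real.log y := Real.log_natCast_nonneg y
  obtain ⟨N1, hN1⟩ := exists_nat_gt (Real.exp (2 * (y * Real.log y) / (γ * ε)))
  refine ⟨N1 + 2, fun N hN => ?_⟩
  have hN0 : 0 < N := by omega
  have hNr : (0 : ℝ) < N := by exact_mod_cast hN0
  have hN2 : (1 : ℝ) < N := by
    have : 1 < N := by omega
    exact_mod_cast this
  have hlogN : 0 < Real.log N := Real.log_pos hN2
  have h1 : 2 * (y * Real.log y) / (γ * ε) ≤ Real.log N := by
    rw [Real.le_log_iff_exp_le hNr]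
    refine hN1.le.trans ?_
    have : N1 ≤ N := by omega
    exact_mod_cast this
  rw [div_le_iff₀ hγε] at h1
  rw [div_lt_iff₀ hγε] at hy
  set B := (range N).filter (fun a => (N : ℝ) ^ γ < (Nat.gcd a N : ℝ)) with hB
  have h2 : (B.card : ℝ) * (γ * Real.log N) ≤ N * (y * Real.log y + Real.log N / y) := by
    calc (B.card : ℝ) * (γ * Real.log N) = ∑ a ∈ B, γ * Real.log N := by
          rw [Finset.sum_const, nsmul_eq_mul]
      _ ≤ ∑ a ∈ B, Real.log (Nat.gcd a N) := by
          apply Finset.sum_le_sum
          intro a ha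
          rw [hB, Finset.mem_filter] at ha
          rw [← Real.log_rpow hNr]
          exact Real.log_le_log (Real.rpow_pos_of_pos hNr γ) ha.2.le
      _ ≤ ∑ a ∈ range N, Real.log (Nat.gcd a N) :=
          Finset.sum_le_sum_of_subset_of_nonneg (Finset.filter_subset _ _)
            fun a _ _ => Real.log_natCast_nonneg _
      _ ≤ N * ∑ q ∈ N.divisors, ArithmeticFunction.vonMangoldt q / q :=
          Pool.Agent.H415.AL.sum_log hN0
      _ ≤ N * (y * Real.log y + Real.log N / y) :=
          mul_le_mul_of_nonneg_left (Pool.Agent.H415.AL.sum_vm hN0 hy0) hNr.le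
  have h3 : y * Real.log y + Real.log N / y ≤ ε * (γ * Real.log N) := by
    have h4 : y * Real.log y ≤ ε * (γ * Real.log N) / 2 := by linarith
    have h5 : Real.log N / y ≤ ε * (γ * Real.log N) / 2 := by
      rw [div_le_iff₀ hy0']
      have := mul_le_mul_of_nonneg_right hy.le hlogN.le
      linarith
    linarith
  have h6 : (B.card : ℝ) * (γ * Real.log N) ≤ (ε * N) * (γ * Real.log N) := by
    calc _ ≤ _ := h2
      _ ≤ N * (ε * (γ * Real.log N)) := mul_le_mul_of_nonneg_left h3 hNr.le
      _ = _ := by ring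
  exact le_of_mul_le_mul_right h6 (by positivity)

end Pool.Agent.H484.AL
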